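import Pool.Agent.K1H44.AL.Dat
import Pool.Agent.K1H44.AL.Acc

/-! Project AL: kernel evaluation of the partial products, part 0. -/

set_option autoImplicit false

namespace Pool.Agent.K1H44.AL

open Pool.Agent.R751.Flower

theorem okp0 : List.all dp0 okD = true := by decide +kernel

theorem cp0 : wkL (blkP 48 dp0 (List.replicate 48 ⟨PP, 0, 0⟩)) ap1 = true := by decide +kernel

theorem okp1 : List.all dp1 okD = true := by decide +kernel

theorem cp1 : wkL (blkP 48 dp1 ap1) ap2 = true := by decide +kernel

theorem okp2 : List.all dp2 okD = true := by decide +kernel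

theorem cp2 : wkL (blkP 48 dp2 ap2) ap3 = true := by decide +kernel

end Pool.Agent.K1H44.AL
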