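import Pool.Agent.K1H44.AL.Dat
import Pool.Agent.K1H44.AL.Acc

/-! Project AL: kernel evaluation of the partial products, part 1. -/

set_option autoImplicit false

namespace Pool.Agent.K1H44.AL

open Pool.Agent.R751.Flower

theorem okp3 : List.all dp3 okD = true := by decide +kernel

theorem cp3 : wkL (blkP 48 dp3 ap3) ap4 = true := by decide +kernel

theorem okp4 : List.all dp4 okD = true := by decide +kernel

theorem cp4 : wkL (blkP 48 dp4 ap4) ap5 = true := by decide +kernel

theorem okp5 : List.all dp5 okD = true := by decide +kernel

theorem cp5 : wkL (blkP 48 dp5 ap5) ap6 = true := by decide +kernel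

end Pool.Agent.K1H44.AL
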