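import Pool.Agent.K1H44.AL.Dat
import Pool.Agent.K1H44.AL.Acc

/-! Project AL: kernel evaluation of the partial sums, part 0. -/

set_option autoImplicit false

namespace Pool.Agent.K1H44.AL

open Pool.Agent.R751.Flower

theorem oks0 : List.all ds0 okD = true := by decide +kernel

theorem cs0 : wkL (blkS 48 ds0 (List.replicate 48 ⟨0, 0, 0⟩)) as1 = true := by decide +kernel

theorem oks1 : List.all ds1 okD = true := by decide +kernel

theorem cs1 : wkL (blkS 48 ds1 as1) as2 = true := by decide +kernel

theorem oks2 : List.all ds2 okD = true := by decide +kernel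

theorem cs2 : wkL (blkS 48 ds2 as2) as3 = true := by decide +kernel

end Pool.Agent.K1H44.AL
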