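import Pool.Agent.K1H44.AL.Dat
import Pool.Agent.K1H44.AL.Acc

/-! Project AL: kernel evaluation of the partial sums, part 1. -/

set_option autoImplicit false

namespace Pool.Agent.K1H44.AL

open Pool.Agent.R751.Flower

theorem oks3 : List.all ds3 okD = true := by decide +kernel

theorem cs3 : wkL (blkS 48 ds3 as3) as4 = true := by decide +kernel

theorem oks4 : List.all ds4 okD = true := by decide +kernel

theorem cs4 : wkL (blkS 48 ds4 as4) as5 = true := by decide +kernel

theorem oks5 : List.all ds5 okD = true := by decide +kernel

theorem cs5 : wkL (blkS 48 ds5 as5) as6 = true := by decide +kernel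

end Pool.Agent.K1H44.AL
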