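import Pool.Agent.K1H44.AL.Dat
import Pool.Agent.K1H44.AL.Acc

/-! Project AL: kernel evaluation of the partial sums, part 10. -/

set_option autoImplicit false

namespace Pool.Agent.K1H44.AL

open Pool.Agent.R751.Flower

theorem oks30 : List.all ds30 okD = true := by decide +kernel

theorem cs30 : wkL (blkS 48 ds30 as30) as31 = true := by decide +kernel

theorem oks31 : List.all ds31 okD = true := by decide +kernel

theorem cs31 : wkL (blkS 48 ds31 as31) as32 = true := by decide +kernel

theorem oks32 : List.all ds32 okD = true := by decide +kernel

theorem cs32 : wkL (blkS 48 ds32 as32) as33 = true := by decide +kernel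

end Pool.Agent.K1H44.AL
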