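import Pool.Agent.K1H44.AL.Dat
import Pool.Agent.K1H44.AL.Acc

/-! Project AL: kernel evaluation of the partial sums, part 2. -/

set_option autoImplicit false

namespace Pool.Agent.K1H44.AL

open Pool.Agent.R751.Flower

theorem oks6 : List.all ds6 okD = true := by decide +kernel

theorem cs6 : wkL (blkS 48 ds6 as6) as7 = true := by decide +kernel

theorem oks7 : List.all ds7 okD = true := by decide +kernel

theorem cs7 : wkL (blkS 48 ds7 as7) as8 = true := by decide +kernel

theorem oks8 : List.all ds8 okD = true := by decide +kernel

theorem cs8 : wkL (blkS 48 ds8 as8) as9 = true := by decide +kernel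

end Pool.Agent.K1H44.AL
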