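import Pool.Agent.K1H44.AL.Dat
import Pool.Agent.K1H44.AL.Acc

/-! Project AL: kernel evaluation of the partial sums, part 3. -/

set_option autoImplicit false

namespace Pool.Agent.K1H44.AL

open Pool.Agent.R751.Flower

theorem oks9 : List.all ds9 okD = true := by decide +kernel

theorem cs9 : wkL (blkS 48 ds9 as9) as10 = true := by decide +kernel

theorem oks10 : List.all ds10 okD = true := by decide +kernel

theorem cs10 : wkL (blkS 48 ds10 as10) as11 = true := by decide +kernel

theorem oks11 : List.all ds11 okD = true := by decide +kernel

theorem cs11 : wkL (blkS 48 ds11 as11) as12 = true := by decide +kernel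

end Pool.Agent.K1H44.AL
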