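import Pool.Agent.K1H44.AL.Dat
import Pool.Agent.K1H44.AL.Acc

/-! Project AL: kernel evaluation of the partial sums, part 4. -/

set_option autoImplicit false

namespace Pool.Agent.K1H44.AL

open Pool.Agent.R751.Flower

theorem oks12 : List.all ds12 okD = true := by decide +kernel

theorem cs12 : wkL (blkS 48 ds12 as12) as13 = true := by decide +kernel

theorem oks13 : List.all ds13 okD = true := by decide +kernel

theorem cs13 : wkL (blkS 48 ds13 as13) as14 = true := by decide +kernel

theorem oks14 : List.all ds14 okD = true := by decide +kernel

theorem cs14 : wkL (blkS 48 ds14 as14) as15 = true := by decide +kernel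

end Pool.Agent.K1H44.AL
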