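import Pool.Agent.K1H44.AL.Dat
import Pool.Agent.K1H44.AL.Acc

/-! Project AL: kernel evaluation of the partial sums, part 5. -/

set_option autoImplicit false

namespace Pool.Agent.K1H44.AL

open Pool.Agent.R751.Flower

theorem oks15 : List.all ds15 okD = true := by decide +kernel

theorem cs15 : wkL (blkS 48 ds15 as15) as16 = true := by decide +kernel

theorem oks16 : List.all ds16 okD = true := by decide +kernel

theorem cs16 : wkL (blkS 48 ds16 as16) as17 = true := by decide +kernel

theorem oks17 : List.all ds17 okD = true := by decide +kernel

theorem cs17 : wkL (blkS 48 ds17 as17) as18 = true := by decide +kernel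

end Pool.Agent.K1H44.AL
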