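import Pool.Agent.K1H44.AL.Dat
import Pool.Agent.K1H44.AL.Acc

/-! Project AL: kernel evaluation of the partial sums, part 6. -/

set_option autoImplicit false

namespace Pool.Agent.K1H44.AL

open Pool.Agent.R751.Flower

theorem oks18 : List.all ds18 okD = true := by decide +kernel

theorem cs18 : wkL (blkS 48 ds18 as18) as19 = true := by decide +kernel

theorem oks19 : List.all ds19 okD = true := by decide +kernel

theorem cs19 : wkL (blkS 48 ds19 as19) as20 = true := by decide +kernel

theorem oks20 : List.all ds20 okD = true := by decide +kernel

theorem cs20 : wkL (blkS 48 ds20 as20) as21 = true := by decide +kernel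

end Pool.Agent.K1H44.AL
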