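import Pool.Agent.K1H44.AL.Dat
import Pool.Agent.K1H44.AL.Acc

/-! Project AL: kernel evaluation of the partial sums, part 7. -/

set_option autoImplicit false

namespace Pool.Agent.K1H44.AL

open Pool.Agent.R751.Flower

theorem oks21 : List.all ds21 okD = true := by decide +kernel

theorem cs21 : wkL (blkS 48 ds21 as21) as22 = true := by decide +kernel

theorem oks22 : List.all ds22 okD = true := by decide +kernel

theorem cs22 : wkL (blkS 48 ds22 as22) as23 = true := by decide +kernel

theorem oks23 : List.all ds23 okD = true := by decide +kernel

theorem cs23 : wkL (blkS 48 ds23 as23) as24 = true := by decide +kernel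

end Pool.Agent.K1H44.AL
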