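import Pool.Agent.K1H44.AL.Dat
import Pool.Agent.K1H44.AL.Acc

/-! Project AL: kernel evaluation of the partial sums, part 8. -/

set_option autoImplicit false

namespace Pool.Agent.K1H44.AL

open Pool.Agent.R751.Flower

theorem oks24 : List.all ds24 okD = true := by decide +kernel

theorem cs24 : wkL (blkS 48 ds24 as24) as25 = true := by decide +kernel

theorem oks25 : List.all ds25 okD = true := by decide +kernel

theorem cs25 : wkL (blkS 48 ds25 as25) as26 = true := by decide +kernel

theorem oks26 : List.all ds26 okD = true := by decide +kernel

theorem cs26 : wkL (blkS 48 ds26 as26) as27 = true := by decide +kernel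

end Pool.Agent.K1H44.AL
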