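import Pool.Agent.K1H44.AL.Dat
import Pool.Agent.K1H44.AL.Acc

/-! Project AL: kernel evaluation of the partial sums, part 9. -/

set_option autoImplicit false

namespace Pool.Agent.K1H44.AL

open Pool.Agent.R751.Flower

theorem oks27 : List.all ds27 okD = true := by decide +kernel

theorem cs27 : wkL (blkS 48 ds27 as27) as28 = true := by decide +kernel

theorem oks28 : List.all ds28 okD = true := by decide +kernel

theorem cs28 : wkL (blkS 48 ds28 as28) as29 = true := by decide +kernel

theorem oks29 : List.all ds29 okD = true := by decide +kernel

theorem cs29 : wkL (blkS 48 ds29 as29) as30 = true := by decide +kernel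

end Pool.Agent.K1H44.AL
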