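import Pool.Agent.K1H44.AL.Num
import Pool.Agent.K1H44.AL.Ks0
import Pool.Agent.K1H44.AL.Ks1
import Pool.Agent.K1H44.AL.Ks2
import Pool.Agent.K1H44.AL.Ks3
import Pool.Agent.K1H44.AL.Ks4
import Pool.Agent.K1H44.AL.Ks5
import Pool.Agent.K1H44.AL.Ks6
import Pool.Agent.K1H44.AL.Ks7
import Pool.Agent.K1H44.AL.Ks8
import Pool.Agent.K1H44.AL.Ks9
import Pool.Agent.K1H44.AL.Ks10
import Pool.Agent.K1H44.AL.Kp0
import Pool.Agent.K1H44.AL.Kp1

/-! Project AL: the chains of the kernel evaluations. -/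

set_option autoImplicit false
set_option linter.unusedSimpArgs false

open Finset

namespace Pool.Agent.K1H44.AL

open Pool.Agent.H295R3.W Pool.Agent.R751.Flower

/-- sum over a list of data -/
noncomputable def SS (L : List Dt) (k : ℕ) : ℂ := (L.map fun d => uu d.n k / d.n).sum
/-- product over a list of data -/
noncomputable def PL (L : List Dt) (k : ℕ) : ℂ := (L.map fun d => lf d.n k).prod

theorem stepS (hB : S_BALL) (hBa : S_BASE) (hBl : S_BLK) {L l : List Dt} {acc acc' : List CB}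
    (h : Lst 48 (SS L) acc) (ok : List.all l okD = true) (c : wkL (blkS 48 l acc) acc' = true) :
    Lst 48 (SS (L ++ l)) acc' := by
  obtain ⟨h1, -, h3⟩ := hBl hB hBa
  have ok' : ∀ d ∈ l, okD d = true := List.all_eq_true.1 ok
  have h4 := h3 48 _ _ acc' (h1 48 (SS L) l acc ok' h) c
  have e : (fun k => SS L k + (l.map fun d => uu d.n k / d.n).sum) = SS (L ++ l) := by
    funext k
    simp only [SS, List.map_append, List.sum_append]
  rwa [e] at h4

theorem stepP (hB : S_BALL) (hBa : S_BASE) (hBl : S_BLK) {L l : List Dt} {acc acc' : List CB}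
    (h : Lst 48 (PL L) acc) (ok : List.all l okD = true) (c : wkL (blkP 48 l acc) acc' = true) :
    Lst 48 (PL (L ++ l)) acc' := by
  obtain ⟨-, h1, h3⟩ := hBl hB hBa
  have ok' : ∀ d ∈ l, okD d = true := List.all_eq_true.1 ok
  have h4 := h3 48 _ _ acc' (h1 48 (PL L) l acc ok' h) c
  have e : (fun k => PL L k * (l.map fun d => lf d.n k).prod) = PL (L ++ l) := by
    funext k
    simp only [PL, List.map_append, List.prod_append]
  rwa [e] at h4

theorem initS : Lst 48 (SS []) (List.replicate 48 ⟨0, 0, 0⟩) := by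
  refine ⟨by simp, fun k h => ?_⟩
  rw [List.getElem_replicate]
  simp [In, SS]

theorem initP : Lst 48 (PL []) (List.replicate 48 ⟨PP, 0, 0⟩) := by
  refine ⟨by simp, fun k h => ?_⟩
  rw [List.getElem_replicate]
  simp [In, PL]

/-- all data for `n < 1024` -/
def LS : List Dt := ((((((((((((((((((((((((((((((((([] ++ ds0) ++ ds1) ++ ds2) ++ ds3) ++ ds4) ++ ds5) ++ ds6) ++ ds7) ++ ds8) ++ ds9) ++ ds10) ++ ds11) ++ ds12) ++ ds13) ++ ds14) ++ ds15) ++ ds16) ++ ds17) ++ ds18) ++ ds19) ++ ds20) ++ ds21) ++ ds22) ++ ds23) ++ ds24) ++ ds25) ++ ds26) ++ ds27) ++ ds28) ++ ds29) ++ ds30) ++ ds31) ++ ds32)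

/-- all data for the primes -/
def LP : List Dt := (((((([] ++ dp0) ++ dp1) ++ dp2) ++ dp3) ++ dp4) ++ dp5)

theorem chainS (hB : S_BALL) (hBa : S_BASE) (hBl : S_BLK) : Lst 48 (SS LS) as33 := by
  have h0 := initS
  have h1 := stepS hB hBa hBl h0 oks0 cs0
  have h2 := stepS hB hBa hBl h1 oks1 cs1
  have h3 := stepS hB hBa hBl h2 oks2 cs2
  have h4 := stepS hB hBa hBl h3 oks3 cs3
  have h5 := stepS hB hBa hBl h4 oks4 cs4
  have h6 := stepS hB hBa hBl h5 oks5 cs5
  have h7 := stepS hB hBa hBl h6 oks6 cs6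
  have h8 := stepS hB hBa hBl h7 oks7 cs7
  have h9 := stepS hB hBa hBl h8 oks8 cs8
  have h10 := stepS hB hBa hBl h9 oks9 cs9
  have h11 := stepS hB hBa hBl h10 oks10 cs10
  have h12 := stepS hB hBa hBl h11 oks11 cs11
  have h13 := stepS hB hBa hBl h12 oks12 cs12
  have h14 := stepS hB hBa hBl h13 oks13 cs13
  have h15 := stepS hB hBa hBl h14 oks14 cs14
  have h16 := stepS hB hBa hBl h15 oks15 cs15
  have h17 := stepS hB hBa hBl h16 oks16 cs16
  have h18 := stepS hB hBa hBl h17 oks17 cs17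
  have h19 := stepS hB hBa hBl h18 oks18 cs18
  have h20 := stepS hB hBa hBl h19 oks19 cs19
  have h21 := stepS hB hBa hBl h20 oks20 cs20
  have h22 := stepS hB hBa hBl h21 oks21 cs21
  have h23 := stepS hB hBa hBl h22 oks22 cs22
  have h24 := stepS hB hBa hBl h23 oks23 cs23
  have h25 := stepS hB hBa hBl h24 oks24 cs24
  have h26 := stepS hB hBa hBl h25 oks25 cs25
  have h27 := stepS hB hBa hBl h26 oks26 cs26
  have h28 := stepS hB hBa hBl h27 oks27 cs27
  have h29 := stepS hB hBa hBl h28 oks28 cs28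
  have h30 := stepS hB hBa hBl h29 oks29 cs29
  have h31 := stepS hB hBa hBl h30 oks30 cs30
  have h32 := stepS hB hBa hBl h31 oks31 cs31
  have h33 := stepS hB hBa hBl h32 oks32 cs32
  exact h33

theorem chainP (hB : S_BALL) (hBa : S_BASE) (hBl : S_BLK) : Lst 48 (PL LP) ap6 := by
  have h0 := initP
  have h1 := stepP hB hBa hBl h0 okp0 cp0
  have h2 := stepP hB hBa hBl h1 okp1 cp1
  have h3 := stepP hB hBa hBl h2 okp2 cp2
  have h4 := stepP hB hBa hBl h3 okp3 cp3
  have h5 := stepP hB hBa hBl h4 okp4 cp4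
  have h6 := stepP hB hBa hBl h5 okp5 cp5
  exact h6

theorem LS_n : LS.map Dt.n = List.range' 1 1023 := by decide +kernel

theorem LP_n : LP.map Dt.n = (List.range' 3 253).filter (fun n => decide (Nat.Prime n)) := by
  decide +kernel

theorem SS_eq (k : ℕ) : SS LS k = zs k := by
  have e : SS LS k = ((LS.map Dt.n).map fun n => uu n k / n).sum := by
    simp only [SS, List.map_map]; rfl
  rw [e, LS_n, zs]
  rfl

theorem PL_eq (k : ℕ) : PL LP k = pf k := by
  have e : PL LP k = ((LP.map Dt.n).map fun n => lf n k).prod := by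
    simp only [PL, List.map_map]; rfl
  rw [e, LP_n, pf]
  rfl

theorem chk_sound (h : ∀ (k : ℕ) (z p : CB) (c1 c2 : ℤ) (ε L : ℕ),
      In (zs k) z → In (pf k) p → chkC k z p c1 c2 ε L = true →
      ‖(10 : ℂ) ^ 9 * ck k - ((c1 : ℂ) + (c2 : ℂ) * Complex.I)‖ ≤ ε) :
    ∀ (zl pl : List CB) (cs : List (ℤ × ℤ × ℕ)) (ls : List ℕ) (k0 : ℕ), chkL k0 zl pl cs ls = true →
      (∀ k (h : k < zl.length), In (zs (k0 + k)) zl[k]) → (∀ k (h : k < pl.length), In (pf (k0 + k)) pl[k]) →
      ∀ k, k < zl.length →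
        ‖(10 : ℂ) ^ 9 * ck (k0 + k) - (((gt cs k).1 : ℂ) + ((gt cs k).2.1 : ℂ) * Complex.I)‖ ≤ (gt cs k).2.2 := by
  intro zl
  induction zl with
  | nil => intro pl cs ls k0 _ _ _ k hk; simp at hk
  | cons z zl ih =>
    intro pl cs ls k0 hc hz hp k hk
    match pl, cs, ls, hc, hp with
    | p :: pl, c :: cs, l :: ls, hc, hp =>
      rw [chkL, Bool.and_eq_true] at hc
      obtain ⟨h1, h2⟩ := hc
      match k, hk with
      | 0, _ =>
        have e1 : In (zs k0) z := hz 0 (by simp)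
        have e2 : In (pf k0) p := hp 0 (by simp)
        have := h k0 z p c.1 c.2.1 c.2.2 _ e1 e2 h1
        simpa [gt] using this
      | k + 1, hk =>
        have := ih pl cs ls (k0 + 1) h2
          (fun j hj => by
            have := hz (j + 1) (by simpa using hj)
            rw [show k0 + 1 + j = k0 + (j + 1) by ring]
            simpa using this)
          (fun j hj => by
            have := hp (j + 1) (by simpa using hj)
            rw [show k0 + 1 + j = k0 + (j + 1) by ring]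
            simpa using this) k (by simpa using hk)
        rw [show k0 + 1 + k = k0 + (k + 1) by ring] at this
        simpa [gt] using this
    | [], _, _, hc, _ => simp [chkL] at hc
    | _ :: _, [], _, hc, _ => simp [chkL] at hc
    | _ :: _, _ :: _, [], hc, _ => simp [chkL] at hc

theorem coef (hB : S_BALL) (hBa : S_BASE) (hBl : S_BLK)
    (h : ∀ (k : ℕ) (z p : CB) (c1 c2 : ℤ) (ε L : ℕ),
      In (zs k) z → In (pf k) p → chkC k z p c1 c2 ε L = true →
      ‖(10 : ℂ) ^ 9 * ck k - ((c1 : ℂ) + (c2 : ℂ) * Complex.I)‖ ≤ ε) :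
    ∀ k < 48, ‖(10 : ℂ) ^ 9 * ck k - (((gt cc k).1 : ℂ) + ((gt cc k).2.1 : ℂ) * Complex.I)‖ ≤ (gt cc k).2.2 := by
  intro k hk
  obtain ⟨l1, h1⟩ := chainS hB hBa hBl
  obtain ⟨l2, h2⟩ := chainP hB hBa hBl
  have := chk_sound h as33 ap6 cc lc 0 chk
    (fun k hk => by rw [zero_add, ← SS_eq]; exact h1 k hk)
    (fun k hk => by rw [zero_add, ← PL_eq]; exact h2 k hk) k (by rw [l1]; exact hk)
  rwa [zero_add] at this

/-- the lower bound, from the pieces -/
theorem lower (hB : S_BALL) (hBa : S_BASE) (hBl : S_BLK) (hZ : S_ZETA) (hCK : S_CK) (hE : S_EP)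
    (hEM : TaskEM) (hG : TaskG) (hT : S_TOEP) (hL : TaskLap) (hR : TaskRes) (x₀ : ℝ) :
    ¬ ∀ x : ℝ, x₀ ≤ x → |S x| ≤ (9 / 10 : ℝ) * x := by
  have h := hT hG hL hR 48 9 10 cc vv ww 100000 100001 9076016216728601904
    (coef hB hBa hBl (hCK hB hZ hEM hG hE)) tp x₀
  intro hx
  refine h fun x hxx => ?_
  have := hx x hxx
  simpa using this

end Pool.Agent.K1H44.AL
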