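import Pool.Agent.K1H44.AL.Plan
import Pool.Agent.H630R3.W.G
import Pool.Agent.K1H8.AL.M
import Pool.Agent.K1H64.AL.TB
import Pool.Agent.K1H85.AL.TS
import Pool.Agent.K1H74.AL.Rate
import Pool.Agent.K1H3.AL.Sup

/-! Project AL: the formula for `α`, assembled. -/

set_option autoImplicit false

open Finset Filter Topology

namespace Pool.Agent.K1H44.AL

open Pool.Agent.H295R3.W

theorem tb : S_TB := Pool.Agent.K1H64.AL.t_T Pool.Agent.K1H8.AL.t_M Pool.Agent.H630R3.W.taskG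

theorem formula :
    (∀ y ∈ Set.Ico (1 : ℝ) 2, Summable fun b : ℕ => |T (2 ^ b * y) / (2 ^ b * y)|) ∧
    (∀ V : ℕ, ∃ C : ℝ, ∀ y ∈ Set.Ico (1 : ℝ) 2, ∀ N : ℕ,
      |S (2 ^ N * y) / (2 ^ N * y) - (-1) ^ N * G y| ≤ C / ((N : ℝ) + 1) ^ V) ∧
    alpha = (⨆ y ∈ Set.Ico (1 : ℝ) 2, ((|G y| : ℝ) : EReal)) ∧ alpha < ⊤ := by
  obtain ⟨h1, h2⟩ := Pool.Agent.K1H74.AL.t_RATE tb Pool.Agent.K1H85.AL.t_S
  obtain ⟨h3, h4⟩ := Pool.Agent.K1H3.AL.t_SUP (h2 1)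
  exact ⟨h1, h2, h3, h4⟩

end Pool.Agent.K1H44.AL
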