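import Pool.Agent.K1H44.AL.Plan

/-! Project AL, piece TOEP: soundness of the check of the Toeplitz form. -/

set_option autoImplicit false

open Finset Filter Topology

namespace Pool.Agent.K1H44.AL

open Pool.Agent.H295R3.W Pool.Agent.R751.Flower

theorem sm_eq (n : ℕ) (f : ℕ → ℤ) : sm n f = ∑ i ∈ range n, f i := by
  induction n with
  | zero => rfl
  | succ n ih =>
    rw [Finset.sum_range_succ, ← ih]
    rfl

theorem gt_all (l : List (ℤ × ℤ × ℕ)) (p : ℤ × ℤ × ℕ → Bool) (h : List.all l p = true)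
    (h0 : p (0, 0, 0) = true) : ∀ i, p (gt l i) = true := by
  induction l with
  | nil => intro i; simpa [gt] using h0
  | cons x l ih =>
    rw [List.all_cons, Bool.and_eq_true] at h
    intro i
    cases i with
    | zero => exact h.1
    | succ n => exact ih h.2 n

/-- the complex number of a triple -/
noncomputable def cx (x : ℤ × ℤ × ℕ) : ℂ := (x.1 : ℂ) + (x.2.1 : ℂ) * Complex.I

theorem cx_re (x : ℤ × ℤ × ℕ) : (cx x).re = x.1 := by simp [cx]
theorem cx_im (x : ℤ × ℤ × ℕ) : (cx x).im = x.2.1 := by simp [cx]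

theorem normsq (x : ℤ × ℤ × ℕ) : ‖cx x‖ ^ 2 = ((x.1 ^ 2 + x.2.1 ^ 2 : ℤ) : ℝ) := by
  rw [← Complex.normSq_eq_norm_sq, Complex.normSq_apply, cx_re, cx_im]
  push_cast
  ring

theorem norm_le (x : ℤ × ℤ × ℕ) (h : Nat.ble (x.1.natAbs ^ 2 + x.2.1.natAbs ^ 2) (x.2.2 ^ 2) = true) :
    ‖cx x‖ ≤ x.2.2 := by
  have h1 := Nat.le_of_ble_eq_true h
  have h2 : ((x.1 ^ 2 + x.2.1 ^ 2 : ℤ) : ℝ) ≤ (x.2.2 : ℝ) ^ 2 := by
    have h3 : ((x.1.natAbs ^ 2 + x.2.1.natAbs ^ 2 : ℕ) : ℤ) ≤ ((x.2.2 ^ 2 : ℕ) : ℤ) := by exact_mod_cast h1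
    push_cast at h3
    rw [sq_abs, sq_abs] at h3
    exact_mod_cast h3
  rw [← normsq] at h2
  exact le_of_sq_le_sq h2 (Nat.cast_nonneg _)
where
  le_of_sq_le_sq {a b : ℝ} (h : a ^ 2 ≤ b ^ 2) (hb : 0 ≤ b) : a ≤ b := by
    exact abs_le_of_sq_le_sq' h hb |>.2

theorem m3 (a b c : ℤ × ℤ × ℕ) : cx a * cx b * cx c = ((m3r a b c : ℤ) : ℂ) + ((m3i a b c : ℤ) : ℂ) * Complex.I := by
  have hI := Complex.I_sq
  unfold cx m3r m3i
  push_cast
  linear_combination ((a.1 : ℂ) * b.2.1 * c.2.1 + (a.2.1 : ℂ) * b.1 * c.2.1 + (a.2.1 : ℂ) * b.2.1 * c.1 +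
    (a.2.1 : ℂ) * b.2.1 * c.2.1 * Complex.I) * hI

theorem t_TOEP : S_TOEP := by
  intro hG hLap hRes K an ad c v w nv nw q hc hchk x₀ hS
  unfold toep at hchk
  simp only [Bool.and_eq_true, decide_eq_true_eq] at hchk
  obtain ⟨h1, h2, h3, h4, h5, h6, h7⟩ := hchk
  have had : (0 : ℝ) < ad := by
    have := Nat.le_of_ble_eq_true h1
    exact_mod_cast this
  have hv := gt_all v _ h2 (by decide)
  have hw := gt_all w _ h3 (by decide)
  simp only [sm_eq] at h4 h5 h6 h7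
  have hZ := hLap ((an : ℝ) / ad) x₀ (by positivity) hS K ck (fun k _ => hRes hG k)
    (fun i => cx (gt v i)) (fun j => cx (gt w j))
  set Z : ℂ := ∑ i ∈ range K, ∑ j ∈ range K, cx (gt v i) * cx (gt w j) * Fh ck i j with hZdef
  have hent : ∀ i ∈ range K, ∀ j ∈ range K,
      ‖(10 : ℂ) ^ 9 * Fh ck i j - cx (ent c i j)‖ ≤ ((ent c i j).2.2 : ℝ) := by
    intro i hi j hj
    rw [Finset.mem_range] at hi hj
    unfold Fh ent
    by_cases hij : j ≤ i
    · have hb : Nat.ble j i = true := Nat.ble_eq_true_of_le hij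
      rw [if_pos hij, if_pos hb]
      exact hc (i - j) (by omega)
    · have hb : ¬ Nat.ble j i = true := fun h => hij (Nat.le_of_ble_eq_true h)
      rw [if_neg hij, if_neg hb]
      have h8 := hc (j - i - 1) (by omega)
      have e : (10 : ℂ) ^ 9 * (starRingEnd ℂ) (ck (j - i - 1)) -
          cx ((gt c (j - i - 1)).1, -(gt c (j - i - 1)).2.1, (gt c (j - i - 1)).2.2) =
          (starRingEnd ℂ) ((10 : ℂ) ^ 9 * ck (j - i - 1) -
            (((gt c (j - i - 1)).1 : ℂ) + ((gt c (j - i - 1)).2.1 : ℂ) * Complex.I)) := by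
        unfold cx
        simp only [map_sub, map_mul, map_add, map_pow, Complex.conj_I, map_intCast, map_ofNat]
        push_cast
        ring
      rw [e, RCLike.norm_conj]
      exact h8
  set Q : ℂ := ∑ i ∈ range K, ∑ j ∈ range K, cx (gt v i) * cx (gt w j) * cx (ent c i j) with hQdef
  have hdiff : ‖(10 : ℂ) ^ 9 * Z - Q‖ ≤
      ((∑ i ∈ range K, ∑ j ∈ range K, ((gt v i).2.2 : ℤ) * (gt w j).2.2 * (ent c i j).2.2 : ℤ) : ℝ) := by
    rw [hZdef, hQdef, Finset.mul_sum, ← Finset.sum_sub_distrib]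
    push_cast
    refine (norm_sum_le _ _).trans (Finset.sum_le_sum fun i hi => ?_)
    rw [Finset.mul_sum, ← Finset.sum_sub_distrib]
    refine (norm_sum_le _ _).trans (Finset.sum_le_sum fun j hj => ?_)
    have e : (10 : ℂ) ^ 9 * (cx (gt v i) * cx (gt w j) * Fh ck i j) -
        cx (gt v i) * cx (gt w j) * cx (ent c i j) =
        cx (gt v i) * cx (gt w j) * ((10 : ℂ) ^ 9 * Fh ck i j - cx (ent c i j)) := by ring
    rw [e, norm_mul, norm_mul]
    have a1 := norm_le _ (hv i)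
    have a2 := norm_le _ (hw j)
    have a3 := hent i hi j hj
    gcongr
  have hQ : Q = (((∑ i ∈ range K, ∑ j ∈ range K, m3r (gt v i) (gt w j) (ent c i j) : ℤ)) : ℂ) +
      (((∑ i ∈ range K, ∑ j ∈ range K, m3i (gt v i) (gt w j) (ent c i j) : ℤ)) : ℂ) * Complex.I := by
    rw [hQdef]
    push_cast
    rw [Finset.sum_mul, ← Finset.sum_add_distrib]
    refine Finset.sum_congr rfl fun i _ => ?_
    rw [Finset.sum_mul, ← Finset.sum_add_distrib]
    refine Finset.sum_congr rfl fun j _ => ?_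
    rw [m3]
  have hQn : (q : ℝ) ≤ ‖Q‖ := by
    apply abs_le_of_sq_le_sq' _ (norm_nonneg _) |>.2
    rw [hQ, ← Complex.normSq_eq_norm_sq, Complex.normSq_apply]
    simp only [Complex.add_re, Complex.add_im, Complex.mul_re, Complex.mul_im, Complex.intCast_re,
      Complex.intCast_im, Complex.I_re, Complex.I_im, mul_zero, mul_one, zero_mul, sub_zero, add_zero,
      zero_add, sub_self]
    rw [← sq, ← sq]
    exact_mod_cast h6
  have hvn : √(∑ i ∈ range K, ‖cx (gt v i)‖ ^ 2) ≤ nv := by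
    rw [Real.sqrt_le_left (Nat.cast_nonneg _)]
    simp only [normsq]
    exact_mod_cast h4
  have hwn : √(∑ j ∈ range K, ‖cx (gt w j)‖ ^ 2) ≤ nw := by
    rw [Real.sqrt_le_left (Nat.cast_nonneg _)]
    simp only [normsq]
    exact_mod_cast h5
  have hZ2 : ‖Z‖ ≤ (an : ℝ) / ad * nv * nw := by
    refine hZ.trans ?_
    gcongr
  have h9 : (q : ℝ) - ((∑ i ∈ range K, ∑ j ∈ range K,
      ((gt v i).2.2 : ℤ) * (gt w j).2.2 * (ent c i j).2.2 : ℤ) : ℝ) ≤ 10 ^ 9 * ‖Z‖ := by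
    have h10 : ‖Q‖ - ‖(10 : ℂ) ^ 9 * Z - Q‖ ≤ ‖(10 : ℂ) ^ 9 * Z‖ := by
      have := norm_sub_norm_le Q (Q - (10 : ℂ) ^ 9 * Z)
      have e : Q - (Q - (10 : ℂ) ^ 9 * Z) = (10 : ℂ) ^ 9 * Z := by ring
      rw [e, norm_sub_rev Q ((10 : ℂ) ^ 9 * Z)] at this
      exact this
    have h11 : ‖(10 : ℂ) ^ 9 * Z‖ = 10 ^ 9 * ‖Z‖ := by
      rw [norm_mul, norm_pow]
      norm_num
    rw [h11] at h10
    linarith
  have h12 : (an : ℝ) * nv * nw * 10 ^ 9 + ad * ((∑ i ∈ range K, ∑ j ∈ range K,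
      ((gt v i).2.2 : ℤ) * (gt w j).2.2 * (ent c i j).2.2 : ℤ) : ℝ) < ad * q := by
    exact_mod_cast h7
  have h13 : (ad : ℝ) * (10 ^ 9 * ‖Z‖) ≤ an * nv * nw * 10 ^ 9 := by
    have e : (an : ℝ) * nv * nw * 10 ^ 9 = ad * (10 ^ 9 * ((an : ℝ) / ad * nv * nw)) := by
      field_simp
    rw [e]
    gcongr
  nlinarith [mul_le_mul_of_nonneg_left h9 had.le]

end Pool.Agent.K1H44.AL
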