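import Pool.Agent.K1H44.AL.Chain
import Pool.Agent.K1H44.AL.Toep
import Pool.Agent.K1H28.AL.Ball
import Pool.Agent.K1H92.AL.Base
import Pool.Agent.K1H31.AL.Blk
import Pool.Agent.K1H29.AL.Zeta
import Pool.Agent.K1H46.AL.CK
import Pool.Agent.K1H1.AL.EP
import Pool.Agent.H630R3.W.G
import Pool.Agent.H142R3.W.TaskRes
import Pool.Agent.H358R3.W.TaskEM
import Pool.Agent.H553R3.W.TaskLap

/-! Project AL: the lower bound, assembled. -/

set_option autoImplicit false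

open Finset Filter Topology

namespace Pool.Agent.K1H44.AL

open Pool.Agent.H295R3.W

theorem lower9 (x₀ : ℝ) : ¬ ∀ x : ℝ, x₀ ≤ x → |S x| ≤ (9 / 10 : ℝ) * x :=
  lower Pool.Agent.K1H28.AL.t_BALL Pool.Agent.K1H92.AL.t_BASE Pool.Agent.K1H31.AL.t_BLK
    Pool.Agent.K1H29.AL.t_ZETA Pool.Agent.K1H46.AL.t_CK Pool.Agent.K1H1.AL.t_EP
    Pool.Agent.H358R3.W.taskEM Pool.Agent.H630R3.W.taskG t_TOEP Pool.Agent.H553R3.W.taskLap
    Pool.Agent.H142R3.W.taskRes x₀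

end Pool.Agent.K1H44.AL
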