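import Pool.Agent.H295R3.W.StmtsB
import Pool.Agent.R751.FlB

/-!
Project AL (helper44, MP_88bd62_nt): `S(x) = ∑_{n ≤ x} (-2)^Ω(n)`, `α = limsup |S(x)| / x`:
formula for `α`, finiteness, and a lower bound by a large Toeplitz form.  Statements of the pieces.
The functions are written for evaluation in the kernel (`fN`, `fZ`, `fB` force numbers).
-/

set_option autoImplicit false

open Finset Filter Topology

namespace Pool.Agent.K1H44.AL

open Pool.Agent.H295R3.W Pool.Agent.R751.Flower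

/-! ### Part A: the formula for `α` -/

/-- the limit function, for `1 ≤ y < 2` -/
noncomputable def G (y : ℝ) : ℝ := ∑' b : ℕ, (-1 : ℝ) ^ b * (T (2 ^ b * y) / (2 ^ b * y))

/-- `α = limsup |S(x)|/x ∈ [0, ∞]` -/
noncomputable def alpha : EReal := limsup (fun x : ℝ => ((|S x| / x : ℝ) : EReal)) atTop

/-- bound for the odd sums -/
def S_TB : Prop := ∀ V : ℕ, ∃ C : ℝ, 0 < C ∧ ∀ u : ℝ, 1 ≤ u → |T u| ≤ C * u / (Real.log (u + 1)) ^ V

/-- absolute convergence and rate -/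
def S_RATE : Prop := S_TB → TaskS →
  (∀ y ∈ Set.Ico (1 : ℝ) 2, Summable fun b : ℕ => |T (2 ^ b * y) / (2 ^ b * y)|) ∧
  ∀ V : ℕ, ∃ C : ℝ, ∀ y ∈ Set.Ico (1 : ℝ) 2, ∀ N : ℕ,
    |S (2 ^ N * y) / (2 ^ N * y) - (-1) ^ N * G y| ≤ C / ((N : ℝ) + 1) ^ V

/-- the limsup from the rate -/
def S_SUP : Prop := (∃ C : ℝ, ∀ y ∈ Set.Ico (1 : ℝ) 2, ∀ N : ℕ,
    |S (2 ^ N * y) / (2 ^ N * y) - (-1) ^ N * G y| ≤ C / ((N : ℝ) + 1) ^ 1) →
  alpha = (⨆ y ∈ Set.Ico (1 : ℝ) 2, ((|G y| : ℝ) : EReal)) ∧ alpha < ⊤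

/-! ### Part B: numerics -/

/-- forces a natural number -/
noncomputable def fN {α : Type} (n : ℕ) (f : ℕ → α) : α := Nat.rec (f 0) (fun m _ => f (m + 1)) n

/-- forces an integer -/
noncomputable def fZ {α : Type} (z : ℤ) (f : ℤ → α) : α :=
  Int.rec (fun n => fN n fun m => f (Int.ofNat m)) (fun n => fN n fun m => f (Int.negSucc m)) z

/-- forces a ball -/
noncomputable def fB {α : Type} (w : CB) (f : CB → α) : α :=
  fZ w.a fun a => fZ w.b fun b => fN w.e fun e => f ⟨a, b, e⟩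

/-- the ball `w` (scale `PP = 2 ^ 128`) contains `z`; `Good x w` is `In (ex x) w` -/
def In (z : ℂ) (w : CB) : Prop :=
  ‖((PP : ℤ) : ℂ) * z - (((w.a : ℤ) : ℂ) + ((w.b : ℤ) : ℂ) * Complex.I)‖ ≤ (w.e : ℝ)

def add (u v : CB) : CB := ⟨u.a + v.a, u.b + v.b, u.e + v.e⟩
def sub (u v : CB) : CB := ⟨u.a - v.a, u.b - v.b, u.e + v.e⟩
/-- multiplication by a natural number -/
def smul (c : ℕ) (u : CB) : CB := ⟨c * u.a, c * u.b, c * u.e⟩
/-- division by a positive natural number -/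
def divN (u : CB) (n : ℕ) : CB := ⟨u.a / n, u.b / n, u.e / n + 3⟩
/-- product of two balls -/
def gm (u v : CB) : CB :=
  ⟨(u.a * v.a - u.b * v.b) / PP, (u.a * v.b + u.b * v.a) / PP,
    ((u.a.natAbs + u.b.natAbs + u.e) * v.e + (v.a.natAbs + v.b.natAbs) * u.e) / PN + 4⟩
/-- multiplication by `I` -/
def mulI (u : CB) : CB := ⟨-u.b, u.a, u.e⟩
/-- is the ball `w` contained in `w'` -/
def wk (w w' : CB) : Bool := Nat.ble ((w.a - w'.a).natAbs + (w.b - w'.b).natAbs + w.e) w'.e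
/-- short balls: centre `(a + b i) / 2 ^ 40`, radius `e / 2 ^ 40` -/
def mk (a b : ℤ) (e : ℕ) : CB := ⟨a * 2 ^ 88, b * 2 ^ 88, e * 2 ^ 88⟩
/-- containment of lists of balls of the same length -/
def wkL : List CB → List CB → Bool
  | [], [] => true
  | u :: us, v :: vs => wk u v && wkL us vs
  | _, _ => false

def S_BALL : Prop :=
  (∀ (α : Type) (w : CB) (f : CB → α), fB w f = f w) ∧
  (∀ (z z' : ℂ) (u v : CB), In z u → In z' v → In (z + z') (add u v)) ∧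
  (∀ (z z' : ℂ) (u v : CB), In z u → In z' v → In (z - z') (sub u v)) ∧
  (∀ (c : ℕ) (z : ℂ) (u : CB), In z u → In (c * z) (smul c u)) ∧
  (∀ (n : ℕ) (z : ℂ) (u : CB), 0 < n → In z u → In (z / n) (divN u n)) ∧
  (∀ (z z' : ℂ) (u v : CB), In z u → In z' v → In (z * z') (gm u v)) ∧
  (∀ (z : ℂ) (u : CB), In z u → In (Complex.I * z) (mulI u)) ∧
  (∀ (z : ℂ) (u v : CB), In z u → wk u v = true → In z v)

/-- half of the binary logarithm -/
noncomputable def hl (n : ℕ) : ℝ := Real.log n / Real.log 2 / 2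

/-- data for the logarithm of `n`: `a1 / b1 ≤ log₂ n ≤ a2 / b2`, approximation `m / 2 ^ 35` -/
structure Dt where
  n : ℕ
  a1 : ℕ
  b1 : ℕ
  a2 : ℕ
  b2 : ℕ
  m : ℕ

/-- `n, b1, b2 > 0`, `2 ^ a1 ≤ n ^ b1`, `n ^ b2 ≤ 2 ^ a2`, `m / 2^35 - 2^(-27) ≤ a1 / b1`,
`a2 / b2 ≤ m / 2^35 + 2^(-27)` -/
def okD (d : Dt) : Bool :=
  Nat.ble 1 d.n && (Nat.ble 1 d.b1 && (Nat.ble 1 d.b2 && (Nat.ble (2 ^ d.a1) (d.n ^ d.b1) &&
    (Nat.ble (d.n ^ d.b2) (2 ^ d.a2) && (Nat.ble (d.m * d.b1) (2 ^ 35 * d.a1 + 256 * d.b1) &&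
      Nat.ble (2 ^ 35 * d.a2) ((d.m + 256) * d.b2))))))

/-- ball for `ex (- hl n)` -/
noncomputable def base (m : ℕ) : CB := fB (E 36 m) fun w => ⟨w.a, -w.b, w.e + 2 ^ 103⟩

def S_BASE : Prop := ∀ d : Dt, okD d = true → In (ex (-(hl d.n))) (base d.m)

/-- `u, u b, u b², ...` (`K` terms) -/
noncomputable def row : ℕ → CB → CB → List CB
  | 0, _, _ => []
  | K + 1, u, b => u :: fB (CB.mul u b) (fun u' => row K u' b)

/-- balls for `ex (-(2k+1) hl n)`, `k < K` -/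
noncomputable def rowOf (K : ℕ) (d : Dt) : List CB :=
  fB (base d.m) fun u => fB (CB.mul u u) fun b => row K u b

/-- adds `us / n` to `ss` -/
noncomputable def zwS (n : ℕ) : List CB → List CB → List CB
  | s :: ss, u :: us => fB (add s (divN u n)) fun x => x :: zwS n ss us
  | _, _ => []

/-- `1 - 3 z ^ 2 + 2 z ^ 3`, `z = u / p` -/
noncomputable def fac (p : ℕ) (u : CB) : CB :=
  fB (divN u p) fun z => fB (gm z z) fun z2 => fB (gm z2 z) fun z3 =>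
    add (sub ⟨PP, 0, 0⟩ (smul 3 z2)) (smul 2 z3)

/-- multiplies `ss` by the factors -/
noncomputable def zwP (p : ℕ) : List CB → List CB → List CB
  | s :: ss, u :: us => fB (fac p u) fun f => fB (gm s f) fun x => x :: zwP p ss us
  | _, _ => []

/-- sums over a list of data -/
noncomputable def blkS (K : ℕ) : List Dt → List CB → List CB
  | [], acc => acc
  | d :: l, acc => blkS K l (zwS d.n acc (rowOf K d))

/-- products over a list of data -/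
noncomputable def blkP (K : ℕ) : List Dt → List CB → List CB
  | [], acc => acc
  | d :: l, acc => blkP K l (zwP d.n acc (rowOf K d))

/-- `l` is a list of `K` balls for `g 0, ..., g (K-1)` -/
def Lst (K : ℕ) (g : ℕ → ℂ) (l : List CB) : Prop :=
  l.length = K ∧ ∀ k (h : k < l.length), In (g k) l[k]

/-- `n ^ (-s_k)` times `n` -/
noncomputable def uu (n k : ℕ) : ℂ := ex (-((2 * k + 1) * hl n))

/-- the local factor -/
noncomputable def lf (p k : ℕ) : ℂ := 1 - 3 * (uu p k / p) ^ 2 + 2 * (uu p k / p) ^ 3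

def S_BLK : Prop := S_BALL → S_BASE →
  (∀ (K : ℕ) (g : ℕ → ℂ) (l : List Dt) (acc : List CB), (∀ d ∈ l, okD d = true) → Lst K g acc →
    Lst K (fun k => g k + (l.map fun d => uu d.n k / d.n).sum) (blkS K l acc)) ∧
  (∀ (K : ℕ) (g : ℕ → ℂ) (l : List Dt) (acc : List CB), (∀ d ∈ l, okD d = true) → Lst K g acc →
    Lst K (fun k => g k * (l.map fun d => lf d.n k).prod) (blkP K l acc)) ∧
  (∀ (K : ℕ) (g : ℕ → ℂ) (l l' : List CB), Lst K g l → wkL l l' = true → Lst K g l')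

/-- `log 2 / π` -/
def kap : CB := mk 242591407869 0 200
/-- `π / log 2` -/
def the : CB := mk 4983382677207 0 10000
/-- `π` -/
def pib : CB := mk 3454217652358 0 1
/-- `log 2` -/
def lgb : CB := mk 762123384786 0 1000

/-- ball for `ζ(s_k)` from the ball `z` for `∑_{n < 1024} n^{-s_k}` -/
noncomputable def zeB (k : ℕ) (z : CB) : CB :=
  fB (add z (add (divN ⟨PP, 0, 0⟩ 2048) (add (divN ⟨PP, 0, 0⟩ 12582912)
    (mulI (sub (divN (smul (2 * k + 1) the) 12582912) (divN kap (2 * k + 1))))))) fun w =>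
  ⟨w.a, w.b, w.e + ((45324 * (2 * k + 1) + 30000) ^ 3 * 2 ^ 128) / (10 ^ 12 * 120 * 1024 ^ 3) + 1⟩

/-- `∑_{n < 1024} n^{-s_k}` -/
noncomputable def zs (k : ℕ) : ℂ := ∑ n ∈ Ico 1 1024, uu n k / n

def S_ZETA : Prop := S_BALL → TaskEM → ∀ (k : ℕ) (z : CB), In (zs k) z → In (riemannZeta (sk k)) (zeB k z)

/-- ball for `X_k = (9/4) P_k ζ(s_k)² s_k log 2`, `P_k` the product of the local factors -/
noncomputable def xB (k : ℕ) (z p : CB) : CB :=
  fB (zeB k z) fun z1 => fB (gm z1 z1) fun z2 => fB (gm z2 (add lgb (smul (2 * k + 1) (mulI pib)))) fun z3 =>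
    fB (gm z3 p) fun z4 => divN (smul 9 z4) 4

/-- check of an approximation `(c1 + c2 i) / 10^9` of `c_k` with error `ε / 10^9`; `L` is a lower bound for
`2^128 |X_k|` -/
noncomputable def chkC (k : ℕ) (z p : CB) (c1 c2 : ℤ) (ε L : ℕ) : Bool :=
  fB (xB k z p) fun x =>
    fB (sub (smul (10 ^ 9) ⟨PP, 0, 0⟩) (gm ⟨c1 * PP, c2 * PP, 0⟩ x)) fun y =>
    Nat.ble ((L + x.e) ^ 2) (x.a.natAbs ^ 2 + x.b.natAbs ^ 2) &&
    (Nat.ble 1 L && Nat.ble (3333334 * PN + (y.a.natAbs + y.b.natAbs + y.e)) (ε * L))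

/-- the product of the local factors -/
noncomputable def pf (k : ℕ) : ℂ := ∏ p ∈ (Ico 3 256).filter Nat.Prime, lf p k

/-- Euler product of `Dirg`, tail beyond `256` (as `TaskEP`) -/
def S_EP : Prop := TaskG → ∀ s : ℂ, s.re = 1 → ∃ R : ℂ, ‖R - 1‖ ≤ 1 / 300 ∧
  Dirg s = (1 - (2 : ℂ) ^ (-s))⁻¹ ^ 2 *
    (∏ p ∈ (Ico 3 256).filter Nat.Prime, (1 - 3 * ((p : ℂ) ^ (-s)) ^ 2 + 2 * ((p : ℂ) ^ (-s)) ^ 3)⁻¹) * R

def S_CK : Prop := S_BALL → S_ZETA → TaskEM → TaskG → S_EP → ∀ (k : ℕ) (z p : CB) (c1 c2 : ℤ) (ε L : ℕ),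
  In (zs k) z → In (pf k) p → chkC k z p c1 c2 ε L = true →
  ‖(10 : ℂ) ^ 9 * ck k - ((c1 : ℂ) + (c2 : ℂ) * Complex.I)‖ ≤ ε

/-! ### The Toeplitz form -/

/-- `∑_{i < n} f i` -/
noncomputable def sm (n : ℕ) (f : ℕ → ℤ) : ℤ := Nat.rec 0 (fun i acc => acc + f i) n

/-- list lookup -/
def gt : List (ℤ × ℤ × ℕ) → ℕ → ℤ × ℤ × ℕ
  | [], _ => (0, 0, 0)
  | x :: _, 0 => x
  | _ :: l, n + 1 => gt l n

/-- the entries of the Toeplitz matrix: real part, imaginary part, error -/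
def ent (c : List (ℤ × ℤ × ℕ)) (i j : ℕ) : ℤ × ℤ × ℕ :=
  if Nat.ble j i then gt c (i - j) else ((gt c (j - i - 1)).1, -(gt c (j - i - 1)).2.1, (gt c (j - i - 1)).2.2)

/-- real part of `a b c` -/
def m3r (a b c : ℤ × ℤ × ℕ) : ℤ :=
  (a.1 * b.1 - a.2.1 * b.2.1) * c.1 - (a.1 * b.2.1 + a.2.1 * b.1) * c.2.1
/-- imaginary part of `a b c` -/
def m3i (a b c : ℤ × ℤ × ℕ) : ℤ :=
  (a.1 * b.1 - a.2.1 * b.2.1) * c.2.1 + (a.1 * b.2.1 + a.2.1 * b.1) * c.1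

/-- The check.  `c` approximations of `10^9 c_k` with errors; `v`, `w` vectors of Gaussian integers with
upper bounds of the moduli as third components; `nv`, `nw` upper bounds of the norms of `v`, `w`; `q` lower
bound of the modulus of the form.  `A = an / ad`. -/
noncomputable def toep (K an ad : ℕ) (c v w : List (ℤ × ℤ × ℕ)) (nv nw q : ℕ) : Bool :=
  Nat.ble 1 ad &&
  ((List.all v fun x => Nat.ble (x.1.natAbs ^ 2 + x.2.1.natAbs ^ 2) (x.2.2 ^ 2)) &&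
  ((List.all w fun x => Nat.ble (x.1.natAbs ^ 2 + x.2.1.natAbs ^ 2) (x.2.2 ^ 2)) &&
  (decide (sm K (fun i => (gt v i).1 ^ 2 + (gt v i).2.1 ^ 2) ≤ (nv : ℤ) ^ 2) &&
  (decide (sm K (fun i => (gt w i).1 ^ 2 + (gt w i).2.1 ^ 2) ≤ (nw : ℤ) ^ 2) &&
  (decide ((q : ℤ) ^ 2 ≤ (sm K fun i => sm K fun j => m3r (gt v i) (gt w j) (ent c i j)) ^ 2 +
      (sm K fun i => sm K fun j => m3i (gt v i) (gt w j) (ent c i j)) ^ 2) &&
  decide ((an : ℤ) * nv * nw * 10 ^ 9 +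
    ad * (sm K fun i => sm K fun j => ((gt v i).2.2 : ℤ) * (gt w j).2.2 * (ent c i j).2.2) < ad * q))))))

def S_TOEP : Prop := TaskG → TaskLap → TaskRes →
  ∀ (K an ad : ℕ) (c v w : List (ℤ × ℤ × ℕ)) (nv nw q : ℕ),
  (∀ k < K, ‖(10 : ℂ) ^ 9 * ck k - (((gt c k).1 : ℂ) + ((gt c k).2.1 : ℂ) * Complex.I)‖ ≤ (gt c k).2.2) →
  toep K an ad c v w nv nw q = true →
  ∀ x₀ : ℝ, ¬ ∀ x : ℝ, x₀ ≤ x → |S x| ≤ ((an : ℝ) / ad) * x

end Pool.Agent.K1H44.AL
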